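import Mathlib
import Pool.Agent.Zk24.SL.Zd
import Pool.Agent.Zk43.CovB

/-!
From bump functions on few balls to coverings of most of the circle at all small scales (module W2
for helper24)
-/

set_option autoImplicit false

open MeasureTheory Filter Topology Set Classical

namespace Pool.Agent.Zk63.SL

open Pool.Agent.Zk24.SL Pool.Agent.Zk43

/-- the union of the balls -/
def balls (p l : ℕ) {K : ℕ} (s : Fin K → ℕ) : Set UnitAddCircle :=
  ⋃ a, Metric.closedBall (TopologicalSpace.denseSeq UnitAddCircle (s a)) (1 / (4 * (p : ℝ) ^ l))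

theorem balls_meas (p l : ℕ) {K : ℕ} (s : Fin K → ℕ) : MeasurableSet (balls p l s) :=
  MeasurableSet.iUnion fun _ => measurableSet_closedBall

theorem bmp_le (p l : ℕ) {K : ℕ} (s : Fin K → ℕ) (x : UnitAddCircle) : bmp p l s x ≤ 1 :=
  max_le zero_le_one (min_le_left _ _)

theorem bmp_zero {p l K : ℕ} (hp : 2 ≤ p) (hK : 1 ≤ K) (s : Fin K → ℕ) {x : UnitAddCircle}
    (hx : x ∉ balls p l s) : bmp p l s x = 0 := by
  have hpl : (0 : ℝ) < (p : ℝ) ^ l := by
    have : (0 : ℝ) < p := by exact_mod_cast (by omega : 0 < p)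
    positivity
  have : Nonempty (Fin K) := ⟨⟨0, by omega⟩⟩
  have h1 : 1 / (4 * (p : ℝ) ^ l) ≤ Metric.infDist x
      (Set.range fun a => TopologicalSpace.denseSeq UnitAddCircle (s a)) := by
    rw [Metric.le_infDist (Set.range_nonempty _)]
    rintro _ ⟨a, rfl⟩
    by_contra h2
    exact hx (mem_iUnion.mpr ⟨a, Metric.mem_closedBall.mpr (le_of_lt (not_le.mp h2))⟩)
  have h3 : 2 - 8 * (p : ℝ) ^ l * Metric.infDist x
      (Set.range fun a => TopologicalSpace.denseSeq UnitAddCircle (s a)) ≤ 0 := by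
    have h4 : 8 * (p : ℝ) ^ l * (1 / (4 * (p : ℝ) ^ l)) = 2 := by
      field_simp
      norm_num
    have h5 := mul_le_mul_of_nonneg_left h1 (by positivity : (0 : ℝ) ≤ 8 * (p : ℝ) ^ l)
    linarith
  exact max_eq_left ((min_le_right _ _).trans h3)

theorem balls_large {p l K : ℕ} (hp : 2 ≤ p) (hK : 1 ≤ K) (s : Fin K → ℕ)
    {κ : Measure UnitAddCircle} [IsProbabilityMeasure κ] {η : ℝ} (h : 1 - η < ∫ x, bmp p l s x ∂κ) :
    κ.real (balls p l s)ᶜ ≤ η := by
  have h1 : ∫ x, bmp p l s x ∂κ ≤ κ.real (balls p l s) := by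
    rw [← integral_indicator_one (balls_meas p l s)]
    refine integral_mono_of_nonneg (ae_of_all _ fun x => le_max_left _ _)
      ((integrable_const (1 : ℝ)).indicator (balls_meas p l s)) (ae_of_all _ fun x => ?_)
    show bmp p l s x ≤ (balls p l s).indicator 1 x
    by_cases hx : x ∈ balls p l s
    · rw [indicator_of_mem hx]
      exact bmp_le p l s x
    · rw [indicator_of_notMem hx, bmp_zero hp hK s hx]
  rw [probReal_compl_eq_one_sub (balls_meas p l s)]
  linarith

theorem balls_cov {p l K : ℕ} (hp : 2 ≤ p) (s : Fin K → ℕ) :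
    Cov K (1 / (2 * ((p ^ l : ℕ) : ℝ))) (balls p l s) := by
  refine ⟨fun a => Metric.closedBall (TopologicalSpace.denseSeq UnitAddCircle (s a))
    (1 / (4 * (p : ℝ) ^ l)), subset_rfl, fun a x hx y hy => ?_⟩
  rw [Metric.mem_closedBall] at hx hy
  rw [← dist_eq_norm]
  have h1 := dist_triangle_right x y (TopologicalSpace.denseSeq UnitAddCircle (s a))
  have h2 : 1 / (2 * ((p ^ l : ℕ) : ℝ)) = 1 / (4 * (p : ℝ) ^ l) + 1 / (4 * (p : ℝ) ^ l) := by
    push_cast
    have hpl : (0 : ℝ) < (p : ℝ) ^ l := by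
      have : (0 : ℝ) < p := by exact_mod_cast (by omega : 0 < p)
      positivity
    field_simp
    norm_num
  linarith

theorem markov {m : ℕ} {κ : Measure UnitAddCircle} [IsProbabilityMeasure κ]
    (hκ : ∀ t : ℕ, MeasurePreserving (fun x : UnitAddCircle => m ^ t • x) κ κ)
    {A : Set UnitAddCircle} (hA : MeasurableSet A) (T b : ℕ) :
    ((b : ℝ) + 1) * κ.real {y | ((Finset.range T).filter fun t => m ^ t • y ∉ A).card ≤ b}ᶜ ≤
      T * κ.real Aᶜ := by
  obtain ⟨f, hf⟩ : ∃ f : UnitAddCircle → ℝ, f = fun y => ∑ t ∈ Finset.range T,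
    ({y | m ^ t • y ∉ A} : Set UnitAddCircle).indicator (fun _ => (1 : ℝ)) y := ⟨_, rfl⟩
  have hS : ∀ t : ℕ, MeasurableSet {y : UnitAddCircle | m ^ t • y ∉ A} := fun t =>
    (hκ t).measurable hA.compl
  have hfi : Integrable f κ := by
    rw [hf]
    exact integrable_finsetSum _ fun t _ => (integrable_const (1 : ℝ)).indicator (hS t)
  have hf0 : ∀ y, 0 ≤ f y := by
    intro y
    rw [hf]
    exact Finset.sum_nonneg fun t _ => indicator_nonneg (fun _ _ => zero_le_one) _
  have hfc : ∀ y, f y = (((Finset.range T).filter fun t => m ^ t • y ∉ A).card : ℝ) := by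
    intro y
    rw [hf, ← Finset.sum_boole]
    refine Finset.sum_congr rfl fun t _ => ?_
    by_cases h : m ^ t • y ∈ A
    · rw [if_neg (not_not.mpr h), indicator_of_notMem]
      exact fun h2 => h2 h
    · rw [if_pos h, indicator_of_mem]
      exact h
  have hfI : ∫ y, f y ∂κ = T * κ.real Aᶜ := by
    rw [hf, integral_finsetSum _ fun t _ => (integrable_const (1 : ℝ)).indicator (hS t)]
    have h1 : ∀ t ∈ Finset.range T, ∫ y, ({y | m ^ t • y ∉ A} : Set UnitAddCircle).indicator
        (fun _ => (1 : ℝ)) y ∂κ = κ.real Aᶜ := by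
      intro t _
      have h2 : ∫ y, ({y | m ^ t • y ∉ A} : Set UnitAddCircle).indicator
        (fun _ => (1 : ℝ)) y ∂κ = κ.real {y : UnitAddCircle | m ^ t • y ∉ A} :=
        integral_indicator_one (hS t)
      rw [h2]
      unfold Measure.real
      exact congrArg ENNReal.toReal ((hκ t).measure_preimage hA.compl.nullMeasurableSet)
    rw [Finset.sum_congr rfl h1, Finset.sum_const, Finset.card_range, nsmul_eq_mul]
  rw [← hfI]
  refine le_trans ?_ (mul_meas_ge_le_integral_of_nonneg (ae_of_all _ hf0) hfi ((b : ℝ) + 1))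
  refine mul_le_mul_of_nonneg_left (measureReal_mono fun y hy => ?_) (by positivity)
  have h3 : ¬ ((Finset.range T).filter fun t => m ^ t • y ∉ A).card ≤ b := hy
  show (b : ℝ) + 1 ≤ f y
  rw [hfc]
  exact_mod_cast Nat.lt_of_not_le h3

theorem zd_of_sc {p : ℕ} (hp : 2 ≤ p) {κ : Measure UnitAddCircle} [IsProbabilityMeasure κ]
    (hκ : MeasurePreserving (fun x : UnitAddCircle => p • x) κ κ) (h : Sc p κ) : Zd p κ := by
  intro n ε hε
  obtain ⟨Q, hQ⟩ : ∃ Q : ℕ, Q = 8 * (n + 1) := ⟨_, rfl⟩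
  have hQ0 : (0 : ℝ) < Q := by
    rw [hQ]
    positivity
  obtain ⟨l, K, s, hl, hC, hK, hKM, hint⟩ := h Q (2 ^ Q) (ε / Q) (by positivity)
  obtain ⟨m, hm⟩ : ∃ m : ℕ, m = p ^ l := ⟨_, rfl⟩
  have hm2 : 2 ≤ m := hm ▸ hp.trans (Nat.le_self_pow (by omega) p)
  have hmp : ∀ t : ℕ, MeasurePreserving (fun x : UnitAddCircle => m ^ t • x) κ κ := by
    intro t
    have h1 := hκ.iterate (l * t)
    have h2 : (fun x : UnitAddCircle => p • x)^[l * t] = fun x => m ^ t • x := by
      rw [hm, ← pow_mul]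
      exact smul_iterate p (l * t)
    rwa [h2] at h1
  have hA := balls_large hp hK s hint
  have hK2 : (K + 1) ^ (4 * (n + 1)) ≤ m := by
    have h1 : K + 1 ≤ 2 * K := by omega
    have h2 : ((K + 1) ^ (4 * (n + 1))) ^ 2 ≤ m ^ 2 := by
      calc ((K + 1) ^ (4 * (n + 1))) ^ 2 = (K + 1) ^ Q := by
            rw [← pow_mul, hQ]
            congr 1
            ring
        _ ≤ (2 * K) ^ Q := Nat.pow_le_pow_left h1 _
        _ = 2 ^ Q * K ^ Q := mul_pow _ _ _
        _ ≤ m * m := by
            rw [hm]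
            exact Nat.mul_le_mul hC hKM
        _ = m ^ 2 := (pow_two m).symm
    exact (Nat.pow_le_pow_iff_left two_ne_zero).mp h2
  filter_upwards [eventually_ge_atTop l] with N hN
  obtain ⟨T, hT⟩ : ∃ T : ℕ, T = N / l + 1 := ⟨_, rfl⟩
  have hT1 : N ≤ l * T := by
    rw [hT]
    have := Nat.lt_mul_div_succ N (by omega : 0 < l)
    exact this.le
  have hT2 : l * T ≤ 2 * N := by
    rw [hT, mul_add, mul_one]
    have := Nat.mul_div_le N l
    omega
  obtain ⟨b, hb⟩ : ∃ b : ℕ, b = T / Q := ⟨_, rfl⟩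
  have hb1 : Q * b ≤ T := hb ▸ Nat.mul_div_le T Q
  have hb2 : T < Q * (b + 1) := by
    rw [hb]
    exact Nat.lt_mul_div_succ T (by rw [hQ]; omega)
  have hcov : Cov K (1 / (2 * (m : ℝ))) (balls p l s) := hm ▸ balls_cov hp s
  obtain ⟨f, hf1, hf2⟩ := cov_block (by omega : 1 ≤ m) hcov T b
  have hmk := markov hmp (balls_meas p l s) T b
  refine ⟨(K + 1) ^ T * (2 * m) ^ b,
    fun a => if h : (f a).Nonempty then h.some else 0, ?_, ?_⟩
  · obtain ⟨c, hc⟩ : ∃ c : ℕ, c = (K + 1) ^ T * (2 * m) ^ b := ⟨_, rfl⟩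
    rw [← hc]
    have hc1 : 1 ≤ c := by
      rw [hc]
      exact Nat.mul_pos (Nat.pow_pos (by omega)) (Nat.pow_pos (by omega))
    have h4 : (c ^ (n + 1)) ^ 4 ≤ (p ^ N) ^ 4 := by
      calc (c ^ (n + 1)) ^ 4 = ((K + 1) ^ (4 * (n + 1))) ^ T * (2 * m) ^ (b * (4 * (n + 1))) := by
            rw [hc, mul_pow, mul_pow, ← pow_mul, ← pow_mul, ← pow_mul, ← pow_mul, ← pow_mul]
            congr 2 <;> ring
        _ ≤ m ^ T * (m ^ 2) ^ (b * (4 * (n + 1))) := by
            refine Nat.mul_le_mul (Nat.pow_le_pow_left hK2 _) (Nat.pow_le_pow_left ?_ _)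
            rw [pow_two]
            exact Nat.mul_le_mul_right _ hm2
        _ = m ^ T * m ^ (Q * b) := by
            rw [← pow_mul, hQ]
            congr 2
            ring
        _ ≤ m ^ T * m ^ T := Nat.mul_le_mul_left _ (Nat.pow_le_pow_right (by omega) hb1)
        _ = p ^ (2 * (l * T)) := by
            rw [hm, ← pow_mul, ← pow_add]
            congr 1
            ring
        _ ≤ p ^ (4 * N) := Nat.pow_le_pow_right (by omega) (by omega)
        _ = (p ^ N) ^ 4 := by
            rw [← pow_mul]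
            congr 1
            ring
    have h5 : c ^ (n + 1) ≤ p ^ N := (Nat.pow_le_pow_iff_left (by norm_num)).mp h4
    exact (Nat.pow_le_pow_right hc1 (by omega)).trans h5
  · have hsub : {y | ((Finset.range T).filter fun t => m ^ t • y ∉ balls p l s).card ≤ b} ⊆
        ⋃ a, Metric.closedBall ((fun a => if h : (f a).Nonempty then h.some else 0) a)
          (1 / (p : ℝ) ^ N) := by
      intro y hy
      obtain ⟨a, ha⟩ := mem_iUnion.mp (hf1 hy)
      refine mem_iUnion.mpr ⟨a, ?_⟩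
      have hne : (f a).Nonempty := ⟨y, ha⟩
      rw [Metric.mem_closedBall, dist_eq_norm]
      simp only [dif_pos hne]
      refine (hf2 a y ha _ hne.some_mem).trans ?_
      have hp1 : (1 : ℝ) ≤ p := by exact_mod_cast (by omega : 1 ≤ p)
      rw [one_div_pow, hm]
      refine one_div_le_one_div_of_le (by positivity) ?_
      push_cast
      rw [← pow_mul]
      exact pow_le_pow_right₀ hp1 hT1
    refine (measureReal_mono (compl_subset_compl.mpr hsub)).trans ?_
    have hb0 : (0 : ℝ) < (b : ℝ) + 1 := by positivity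
    have h6 : (T : ℝ) * κ.real (balls p l s)ᶜ ≤ ((b : ℝ) + 1) * ε := by
      calc (T : ℝ) * κ.real (balls p l s)ᶜ ≤ (Q * ((b : ℝ) + 1)) * (ε / Q) := by
            refine mul_le_mul ?_ hA measureReal_nonneg (by positivity)
            exact_mod_cast hb2.le
        _ = ((b : ℝ) + 1) * ε := by
            field_simp
    exact le_of_mul_le_mul_left (hmk.trans h6) hb0

end Pool.Agent.Zk63.SL
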