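import Mathlib
import Pool.Agent.Zk24.SL.Zd
import Pool.Agent.Zk32.Tu7

/-!
The points all of whose limits are thin: a Borel set which carries every thin invariant measure
(module W34 for helper24, after Zk32/Tu6 and Zk32/Tu7)
-/

set_option autoImplicit false

open MeasureTheory Filter Topology Set
open scoped ENNReal

namespace Pool.Agent.Zk63.SL

open Pool.Agent.Zk24.SL Pool.Agent.Zk32

/-- an enumeration of the indices -/
noncomputable def enu : ℕ → (l : ℕ) × (K : ℕ) × (Fin K → ℕ) :=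
  (exists_surjective_nat ((l : ℕ) × (K : ℕ) × (Fin K → ℕ))).choose

lemma enu_surj (u : (l : ℕ) × (K : ℕ) × (Fin K → ℕ)) : ∃ i, enu i = u :=
  (exists_surjective_nat ((l : ℕ) × (K : ℕ) × (Fin K → ℕ))).choose_spec u

/-- the bump functions -/
noncomputable def psi (p i : ℕ) : C(UnitAddCircle, ℝ) := bmp p (enu i).1 (enu i).2.2

/-- the bump function has few balls -/
def GG (p m i : ℕ) : Prop := 1 ≤ (enu i).1 ∧ m ≤ p ^ (enu i).1 ∧ 1 ≤ (enu i).2.1 ∧
  (enu i).2.1 ^ m ≤ p ^ (enu i).1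

lemma GG.mono {p k l i : ℕ} (hkl : k ≤ l) (h : GG p l i) : GG p k i :=
  ⟨h.1, hkl.trans h.2.1, h.2.2.1, (Nat.pow_le_pow_right h.2.2.1 hkl).trans h.2.2.2⟩

lemma psi_nonneg (p i : ℕ) (x : UnitAddCircle) : 0 ≤ psi p i x := le_max_left _ _

lemma psi_le_one (p i : ℕ) (x : UnitAddCircle) : psi p i x ≤ 1 :=
  max_le zero_le_one (min_le_left _ _)

lemma psi_of_sc {p : ℕ} {κ : Measure UnitAddCircle} (h : Sc p κ) (m : ℕ) {η : ℝ} (hη : 0 < η) :
    ∃ i, GG p m i ∧ 1 - η < ∫ x, psi p i x ∂κ := by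
  obtain ⟨l, K, s, h1, h2, h3, h4, h5⟩ := h m m η hη
  obtain ⟨i, hi⟩ := enu_surj ⟨l, K, s⟩
  refine ⟨i, ?_, ?_⟩
  · unfold GG
    rw [hi]
    exact ⟨h1, h2, h3, h4⟩
  · unfold psi
    rw [hi]
    exact h5

lemma sc_of_psi {p : ℕ} {κ : Measure UnitAddCircle}
    (h : ∀ k : ℕ, ∃ i, GG p k i ∧ 1 - (1 / 2 : ℝ) ^ k ≤ ∫ x, psi p i x ∂κ) : Sc p κ := by
  intro n C η hη
  obtain ⟨k, hk⟩ := exists_pow_lt_of_lt_one hη (by norm_num : (1 / 2 : ℝ) < 1)
  obtain ⟨i, hi, h2⟩ := h (max k (max n C))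
  refine ⟨(enu i).1, (enu i).2.1, (enu i).2.2, hi.1, ?_, hi.2.2.1, ?_, ?_⟩
  · exact ((le_max_right n C).trans (le_max_right k _)).trans hi.2.1
  · exact (GG.mono ((le_max_left n C).trans (le_max_right k _)) hi).2.2.2
  · have h3 : (1 / 2 : ℝ) ^ (max k (max n C)) ≤ (1 / 2 : ℝ) ^ k :=
      pow_le_pow_of_le_one (by norm_num) (by norm_num) (le_max_left _ _)
    have h4 : ∫ x, psi p i x ∂κ = ∫ x, bmp p (enu i).1 (enu i).2.2 x ∂κ := rfl
    rw [← h4]
    linarith

/-- **A Borel description.** -/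
theorem det0_iff {p q : ℕ} {F : ℕ → Finset (ℕ × ℕ)} (hF : ∀ k, (F k).Nonempty)
    (x : UnitAddCircle) : x ∈ Det0 p q F ↔ ∀ k : ℕ, ∃ R : ℕ, ∀ n, R ≤ n → ∃ i, i ≤ R ∧
      GG p k i ∧ 1 - (1 / 2 : ℝ) ^ k ≤ ave p q (F n) (psi p i) x := by
  constructor
  · intro hx k
    by_contra hcon
    push Not at hcon
    choose n hnR hn using hcon
    -- the ultrafilter
    set 𝒰 : Ultrafilter ℕ := (Filter.hyperfilter ℕ).map n with h𝒰
    have hnt : Tendsto n atTop atTop := tendsto_atTop_mono hnR tendsto_id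
    have h𝒰a : (𝒰 : Filter ℕ) ≤ atTop := by
      rw [h𝒰, Ultrafilter.coe_map]
      exact (hnt.mono_left hyper_le)
    obtain ⟨κ, hκ, hl⟩ := lim_point (p := p) (q := q) hF 𝒰 x
    have hs := hx 𝒰 h𝒰a κ hκ hl
    obtain ⟨i, hi1, hi2⟩ := psi_of_sc hs k (η := (1 / 2 : ℝ) ^ k) (by positivity)
    have h1 : ∫ y, psi p i y ∂κ ≤ 1 - (1 / 2 : ℝ) ^ k := by
      refine le_of_tendsto (hl (psi p i)) ?_
      rw [h𝒰, Ultrafilter.coe_map, eventually_map]
      filter_upwards [hyper_le (eventually_ge_atTop i)] with R hR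
      exact (hn R i hR hi1).le
    linarith
  · intro h 𝒰 h𝒰 κ hκ hl
    refine sc_of_psi fun k => ?_
    obtain ⟨R, hR⟩ := h k
    have h1 : ∀ᶠ n in (𝒰 : Filter ℕ), ∃ i ∈ Finset.range (R + 1),
        GG p k i ∧ 1 - (1 / 2 : ℝ) ^ k ≤ ave p q (F n) (psi p i) x := by
      filter_upwards [h𝒰 (eventually_ge_atTop R)] with n hn
      obtain ⟨i, hi, h2⟩ := hR n hn
      exact ⟨i, Finset.mem_range.2 (by omega), h2⟩
    have h2 : ∃ i ∈ Finset.range (R + 1), ∀ᶠ n in (𝒰 : Filter ℕ),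
        GG p k i ∧ 1 - (1 / 2 : ℝ) ^ k ≤ ave p q (F n) (psi p i) x := by
      by_contra hcon
      have h3 : ∀ i ∈ Finset.range (R + 1), ∀ᶠ n in (𝒰 : Filter ℕ),
          ¬ (GG p k i ∧
            1 - (1 / 2 : ℝ) ^ k ≤ ave p q (F n) (psi p i) x) := fun i hi =>
        Ultrafilter.eventually_not.2 fun hh => hcon ⟨i, hi, hh⟩
      have h4 := (Finset.eventually_all (Finset.range (R + 1))).2 h3
      obtain ⟨n, hn1, hn2⟩ := (h1.and h4).exists
      obtain ⟨i, hi, h5⟩ := hn1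
      exact hn2 i hi h5
    obtain ⟨i, -, hi⟩ := h2
    obtain ⟨n, hn⟩ := hi.exists
    refine ⟨i, hn.1, ?_⟩
    exact ge_of_tendsto (hl (psi p i)) (hi.mono fun n hn => hn.2)

/-- **The set is Borel.** -/
theorem det0_meas {p q : ℕ} {F : ℕ → Finset (ℕ × ℕ)} (hF : ∀ k, (F k).Nonempty) :
    MeasurableSet (Det0 p q F) := by
  have e : Det0 p q F = ⋂ k : ℕ, ⋃ R : ℕ, ⋂ n : ℕ, {x | R ≤ n → ∃ i, i ≤ R ∧
      GG p k i ∧ 1 - (1 / 2 : ℝ) ^ k ≤ ave p q (F n) (psi p i) x} := by
    ext x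
    rw [det0_iff hF]
    simp only [mem_iInter, mem_iUnion]
    rfl
  rw [e]
  refine MeasurableSet.iInter fun k => MeasurableSet.iUnion fun R => MeasurableSet.iInter fun n => ?_
  by_cases hRn : R ≤ n
  · have e2 : {x | R ≤ n → ∃ i, i ≤ R ∧
        GG p k i ∧ 1 - (1 / 2 : ℝ) ^ k ≤ ave p q (F n) (psi p i) x} =
        ⋃ i : ℕ, {x | (i ≤ R ∧ GG p k i) ∧
          1 - (1 / 2 : ℝ) ^ k ≤ ave p q (F n) (psi p i) x} := by
      ext x
      simp only [mem_iUnion, hRn, true_imp_iff]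
      constructor
      · rintro ⟨i, h1, h2, h3⟩
        exact ⟨i, ⟨h1, h2⟩, h3⟩
      · rintro ⟨i, ⟨h1, h2⟩, h3⟩
        exact ⟨i, h1, h2, h3⟩
    rw [e2]
    refine MeasurableSet.iUnion fun i => ?_
    refine (MeasurableSet.const _).inter ?_
    exact (isClosed_le continuous_const (ave_mono_cont (psi p i))).measurableSet
  · have e2 : {x | R ≤ n → ∃ i, i ≤ R ∧
        GG p k i ∧ 1 - (1 / 2 : ℝ) ^ k ≤ ave p q (F n) (psi p i) x} =
        univ := by
      ext x
      simp only [hRn, false_imp_iff]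
      rfl
    rw [e2]
    exact MeasurableSet.univ

/-- **Every thin invariant measure is carried by the set.** -/
theorem det0_ae {p q : ℕ} {F : ℕ → Finset (ℕ × ℕ)} (hF : ∀ k, (F k).Nonempty)
    {ν : Measure UnitAddCircle} [IsProbabilityMeasure ν]
    (hνp : MeasurePreserving (fun x : UnitAddCircle => p • x) ν ν)
    (hνq : MeasurePreserving (fun x : UnitAddCircle => q • x) ν ν)
    (hsc : Sc p ν)
    (hconv : ∀ g : C(UnitAddCircle, ℝ), ∀ᵐ x ∂ν, ∃ c : ℝ,
      Tendsto (fun k => ave p q (F k) g x) atTop (𝓝 c)) :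
    ∀ᵐ x ∂ν, x ∈ Det0 p q F := by
  -- the condition of `det0_iff`
  set B : ℕ → UnitAddCircle → Prop := fun k x => ∃ R : ℕ, ∀ n, R ≤ n → ∃ i, i ≤ R ∧
      GG p k i ∧ 1 - (1 / 2 : ℝ) ^ k ≤ ave p q (F n) (psi p i) x with hB
  have hBmono : ∀ k l x, k ≤ l → B l x → B k x := by
    rintro k l x hkl ⟨R, hR⟩
    have h1 : (1 / 2 : ℝ) ^ l ≤ (1 / 2 : ℝ) ^ k :=
      pow_le_pow_of_le_one (by norm_num) (by norm_num) hkl
    refine ⟨R, fun n hn => ?_⟩
    obtain ⟨i, hi, h2, h3⟩ := hR n hn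
    exact ⟨i, hi, h2.mono hkl, by linarith⟩
  -- one step
  have hstep : ∀ k : ℕ, ν {x | ¬ B k x} ≤ ENNReal.ofReal (2 * (1 / 2 : ℝ) ^ k) := by
    intro k
    set e : ℝ := (1 / 2 : ℝ) ^ k with he
    have he0 : 0 < e := by positivity
    have he1 : e ≤ 1 := pow_le_one₀ (by norm_num) (by norm_num)
    obtain ⟨i, hi1', hi2⟩ := psi_of_sc hsc k (η := e * e) (by positivity)
    -- the limit function
    have hc : ∀ᵐ x ∂ν, ∃ c : ℝ, Tendsto (fun k => ave p q (F k) (psi p i) x) atTop (𝓝 c) :=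
      hconv (psi p i)
    set h : UnitAddCircle → ℝ := fun x => limUnder atTop fun k => ave p q (F k) (psi p i) x with hh
    have hlim : ∀ᵐ x ∂ν, Tendsto (fun k => ave p q (F k) (psi p i) x) atTop (𝓝 (h x)) := by
      filter_upwards [hc] with x hx
      exact tendsto_nhds_limUnder hx
    have hb0 : ∀ k x, 0 ≤ ave p q (F k) (psi p i) x := fun k x =>
      mul_nonneg (by positivity) (Finset.sum_nonneg fun n _ => psi_nonneg p i _)
    have hb1 : ∀ k x, ave p q (F k) (psi p i) x ≤ 1 := by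
      intro k x
      unfold ave
      have hcard : (0 : ℝ) < (F k).card := by exact_mod_cast (hF k).card_pos
      rw [inv_mul_le_iff₀ hcard, mul_one]
      calc ∑ n ∈ F k, psi p i ((p ^ n.1 * q ^ n.2) • x) ≤ ∑ n ∈ F k, (1 : ℝ) :=
            Finset.sum_le_sum fun n _ => psi_le_one p i _
        _ = (F k).card := by rw [Finset.sum_const, nsmul_eq_mul, mul_one]
    have hint : ∀ k, ∫ x, ave p q (F k) (psi p i) x ∂ν = ∫ x, psi p i x ∂ν := by
      intro k
      have hcard : (0 : ℝ) < (F k).card := by exact_mod_cast (hF k).card_pos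
      unfold ave
      rw [integral_const_mul, integral_finsetSum _ fun n _ =>
        int_contX ν ((psi p i).comp (mulX (p ^ n.1 * q ^ n.2)))]
      have h1 : ∀ n ∈ F k, ∫ x, psi p i ((p ^ n.1 * q ^ n.2) • x) ∂ν = ∫ x, psi p i x ∂ν := by
        intro n _
        have hm := mp_pq hνp hνq n.1 n.2
        exact integral_map hm.measurable.aemeasurable
          (psi p i).continuous.aestronglyMeasurable ▸ by rw [hm.map_eq]
      rw [Finset.sum_congr rfl h1, Finset.sum_const, nsmul_eq_mul, inv_mul_cancel_left₀ hcard.ne']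
    have hhint : ∫ x, h x ∂ν = ∫ x, psi p i x ∂ν := by
      have h1 := tendsto_integral_of_dominated_convergence (μ := ν) (fun _ => (1 : ℝ))
        (F := fun k x => ave p q (F k) (psi p i) x) (f := h)
        (fun k => (aveX_cont (psi p i)).aestronglyMeasurable) (integrable_const _)
        (fun k => Eventually.of_forall fun x => by
          rw [Real.norm_eq_abs, abs_of_nonneg (hb0 k x)]
          exact hb1 k x) hlim
      simp only [hint] at h1
      exact tendsto_nhds_unique h1 tendsto_const_nhds |>.symm ▸ rfl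
    have hh0 : ∀ᵐ x ∂ν, 0 ≤ 1 - h x := by
      filter_upwards [hlim] with x hx
      have := le_of_tendsto' hx fun k => hb1 k x
      linarith
    have hhi : Integrable h ν := by
      refine Integrable.mono' (integrable_const (1 : ℝ))
        (aestronglyMeasurable_of_tendsto_ae atTop
          (fun k => (aveX_cont (p := p) (q := q) (F := F k) (psi p i)).aestronglyMeasurable) hlim) ?_
      filter_upwards [hlim] with x hx
      rw [Real.norm_eq_abs, abs_le]
      have h1 := le_of_tendsto' hx fun k => hb1 k x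
      have h2 := ge_of_tendsto' hx fun k => hb0 k x
      constructor <;> linarith
    have hmk := mul_meas_ge_le_integral_of_nonneg (μ := ν) hh0
      ((integrable_const (1 : ℝ)).sub hhi) (e / 2)
    have h3 : ∫ x, (1 - h x) ∂ν = 1 - ∫ x, psi p i x ∂ν := by
      rw [integral_sub (integrable_const _) hhi, integral_const, probReal_univ, one_smul, hhint]
    have hsub : ν {x | ¬ B k x} ≤ ν {x | e / 2 ≤ 1 - h x} := by
      refine measure_mono_ae ?_
      filter_upwards [hlim] with x hx hnB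
      by_contra hcon
      apply hnB
      have h4 : 1 - e < h x := by
        have : ¬ e / 2 ≤ 1 - h x := hcon
        linarith
      obtain ⟨R, hR⟩ := eventually_atTop.1 ((tendsto_order.1 hx).1 _ h4)
      refine ⟨max R i, fun n hn => ⟨i, le_max_right _ _, hi1', ?_⟩⟩
      exact (hR n ((le_max_left _ _).trans hn)).le
    refine hsub.trans ?_
    rw [← ofReal_measureReal (measure_ne_top _ _)]
    refine ENNReal.ofReal_le_ofReal ?_
    have h5 : e / 2 * ν.real {x | e / 2 ≤ 1 - h x} ≤ e * e := by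
      refine hmk.trans ?_
      have : ∫ x, (1 - h x) ∂ν ≤ e * e := by rw [h3]; linarith
      exact this
    have h6 : ν.real {x | e / 2 ≤ 1 - h x} ≤ 2 * e := by
      by_contra hcon
      push Not at hcon
      nlinarith
    exact h6
  have hall : ∀ k : ℕ, ν {x | ¬ B k x} = 0 := by
    intro k
    refine le_antisymm (ge_of_tendsto' (?_ : Tendsto (fun l : ℕ =>
      ENNReal.ofReal (2 * (1 / 2 : ℝ) ^ (k + l))) atTop (𝓝 0)) fun l => ?_) zero_le
    · have h1 : Tendsto (fun l : ℕ => 2 * (1 / 2 : ℝ) ^ (k + l)) atTop (𝓝 (2 * 0)) := by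
        refine Tendsto.const_mul 2 ?_
        have h2 := (tendsto_pow_atTop_nhds_zero_of_lt_one (r := (1 / 2 : ℝ)) (by norm_num)
          (by norm_num)).comp (tendsto_add_atTop_nat k)
        refine h2.congr fun l => ?_
        simp only [Function.comp_apply, add_comm]
      rw [mul_zero] at h1
      have := ENNReal.tendsto_ofReal h1
      rwa [ENNReal.ofReal_zero] at this
    · refine (measure_mono fun x hx => ?_).trans (hstep (k + l))
      exact fun h => hx (hBmono k (k + l) x (by omega) h)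
  have h1 : ∀ᵐ x ∂ν, ∀ k, B k x := by
    rw [ae_all_iff]
    intro k
    exact measure_eq_zero_iff_ae_notMem.1 (hall k) |>.mono fun x hx => not_not.1 hx
  filter_upwards [h1] with x hx
  exact (det0_iff hF x).2 hx

end Pool.Agent.Zk63.SL
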